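import Mathlib
import Pool.Agent.Lib.MP_e757b3_an_h48.Flow
import Pool.Agent.Lib.MP_e757b3_an_h48.Conv
import Pool.Agent.Lib.MP_e757b3_an_h48.Diag

namespace Pool.Agent.Results.MP_e757b3_an.CommutingConstraints

open Matrix Filter Topology Set
open scoped Kronecker

variable {n m : ℕ}

/-- `P` is the Moore-Penrose pseudoinverse of the real square matrix `M`. -/
def IsPinv (M P : Matrix (Fin m) (Fin m) ℝ) : Prop :=
  M * P * M = M ∧ P * M * P = P ∧ (M * P)ᵀ = M * P ∧ (P * M)ᵀ = P * M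

/-- The matrix `G(X)`: one half of `C⁻¹ ⊗ X + X ⊗ C⁻¹`. -/
noncomputable def condG (C X : Matrix (Fin n) (Fin n) ℝ) :
    Matrix (Fin n × Fin n) (Fin n × Fin n) ℝ :=
  (1 / 2 : ℝ) • (C⁻¹ ⊗ₖ X + X ⊗ₖ C⁻¹)

/-- The matrix with rows `vec (A l)`. -/
def consMat (A : Fin m → Matrix (Fin n) (Fin n) ℝ) : Matrix (Fin m) (Fin n × Fin n) ℝ :=
  Matrix.of fun l => (A l).vec

/-- At time `t` the matrix `X t` is positive definite and the differential equation of the
first-ansatz dynamic holds (at `t = 0` the derivative is the one from the right). -/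
def SolvesAt (C : Matrix (Fin n) (Fin n) ℝ) (A : Fin m → Matrix (Fin n) (Fin n) ℝ)
    (b : Fin m → ℝ) (X : ℝ → Matrix (Fin n) (Fin n) ℝ) (t : ℝ) : Prop :=
  (X t).PosDef ∧ ∃ P : Matrix (Fin m) (Fin m) ℝ,
    IsPinv (consMat A * condG C (X t) * (consMat A)ᵀ) P ∧
    HasDerivWithinAt (fun τ => (X τ).vec)
      ((condG C (X t) * (consMat A)ᵀ * P) *ᵥ b - (X t).vec) (Ici 0) t

/-- `F` is a feasible solution of the SDP. -/
def Feasible (A : Fin m → Matrix (Fin n) (Fin n) ℝ) (b : Fin m → ℝ)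
    (F : Matrix (Fin n) (Fin n) ℝ) : Prop :=
  F.PosSemidef ∧ ∀ l, (A l * F).trace = b l

/-- `F` is an optimal solution of the SDP. -/
def Optimal (C : Matrix (Fin n) (Fin n) ℝ) (A : Fin m → Matrix (Fin n) (Fin n) ℝ)
    (b : Fin m → ℝ) (F : Matrix (Fin n) (Fin n) ℝ) : Prop :=
  Feasible A b F ∧ ∀ F', Feasible A b F' → (C * F).trace ≤ (C * F').trace

section aux

theorem const_of_deriv_zero (f : ℝ → ℝ) (T t : ℝ) (ht : 0 ≤ t) (htT : t < T)
    (h : ∀ τ, 0 ≤ τ → τ < T → HasDerivWithinAt f 0 (Ici 0) τ) : f t = f 0 := by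
  refine constant_of_has_deriv_right_zero (a := 0) (b := t) (f := f) ?_ ?_ t ⟨ht, le_rfl⟩
  · intro τ hτ
    exact ((h τ hτ.1 (hτ.2.trans_lt htT)).continuousWithinAt).mono Icc_subset_Ici_self
  · intro τ hτ
    exact (h τ hτ.1 (hτ.2.trans htT)).mono (Ici_subset_Ici.2 hτ.1)

theorem consMat_transpose_mulVec (A : Fin m → Matrix (Fin n) (Fin n) ℝ) (y : Fin m → ℝ) :
    (consMat A)ᵀ *ᵥ y = (∑ l, y l • A l).vec := by
  funext p
  simp only [consMat, Matrix.mulVec, dotProduct, Matrix.transpose_apply, Matrix.of_apply]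
  rw [Matrix.vec_sum]
  simp [mul_comm]

theorem condG_mulVec (C X Q : Matrix (Fin n) (Fin n) ℝ) :
    condG C X *ᵥ Q.vec = ((1 / 2 : ℝ) • (X * Q * (C⁻¹)ᵀ + C⁻¹ * Q * Xᵀ)).vec := by
  unfold condG
  rw [Matrix.smul_mulVec, Matrix.add_mulVec, kronecker_mulVec_vec, kronecker_mulVec_vec,
    ← Matrix.vec_add, ← Matrix.vec_smul]

/-- hypotheses of the reduction -/
structure Red (C : Matrix (Fin n) (Fin n) ℝ) (A : Fin m → Matrix (Fin n) (Fin n) ℝ)
    (R : Matrix (Fin n) (Fin n) ℝ) (a : Fin m → Fin n → ℝ) : Prop where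
  one : Rᵀ * C * R = 1
  inv : C⁻¹ = R * Rᵀ
  diag : ∀ l, Rᵀ * A l * R = diagonal (a l)

variable {C : Matrix (Fin n) (Fin n) ℝ} {A : Fin m → Matrix (Fin n) (Fin n) ℝ}
  {R : Matrix (Fin n) (Fin n) ℝ} {a : Fin m → Fin n → ℝ}

theorem Red.invT (h : Red C A R a) : (C⁻¹)ᵀ = C⁻¹ := by
  rw [h.inv, Matrix.transpose_mul, Matrix.transpose_transpose]

theorem Red.sum (h : Red C A R a) (y : Fin m → ℝ) :
    Rᵀ * (∑ l, y l • A l) * R = diagonal (fun i => ∑ l, y l * a l i) := by
  have h1 : Rᵀ * (∑ l, y l • A l) * R = ∑ l, y l • (Rᵀ * A l * R) := by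
    rw [Matrix.mul_sum, Matrix.sum_mul]
    refine Finset.sum_congr rfl fun l _ => ?_
    rw [Matrix.mul_smul, Matrix.smul_mul]
  rw [h1]
  ext i j
  rw [Matrix.sum_apply]
  by_cases hij : i = j
  · subst hij
    simp [h.diag]
  · simp [h.diag, hij]

/-- the right side of the dynamic in reduced coordinates -/
theorem Red.rhs (h : Red C A R a) (Z : Matrix (Fin n) (Fin n) ℝ) (hZ : Zᵀ = Z) (y : Fin m → ℝ) :
    (condG C (R * Z * Rᵀ) * (consMat A)ᵀ) *ᵥ y =
      (R * ((1 / 2 : ℝ) • (Z * diagonal (fun i => ∑ l, y l * a l i) +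
        diagonal (fun i => ∑ l, y l * a l i) * Z)) * Rᵀ).vec := by
  rw [← Matrix.mulVec_mulVec, consMat_transpose_mulVec, condG_mulVec, h.invT]
  congr 1
  have hX : (R * Z * Rᵀ)ᵀ = R * Z * Rᵀ := by
    rw [Matrix.transpose_mul, Matrix.transpose_mul, Matrix.transpose_transpose, hZ,
      Matrix.mul_assoc]
  rw [hX, h.inv, ← h.sum y]
  rw [Matrix.mul_smul, Matrix.smul_mul, Matrix.mul_add, Matrix.add_mul]
  simp only [Matrix.mul_assoc]

theorem Red.gram (h : Red C A R a) (hA : ∀ l, (A l).IsSymm) (Z : Matrix (Fin n) (Fin n) ℝ)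
    (hZ : Zᵀ = Z) (y : Fin m → ℝ) (k : Fin m) :
    ((consMat A * condG C (R * Z * Rᵀ) * (consMat A)ᵀ) *ᵥ y) k =
      ∑ i, a k i * (Z i i * ∑ l, y l * a l i) := by
  rw [Matrix.mul_assoc, ← Matrix.mulVec_mulVec, h.rhs Z hZ y]
  have h1 : ∀ Q : Matrix (Fin n) (Fin n) ℝ, (consMat A *ᵥ Q.vec) k = (A k * Q).trace := by
    intro Q
    have : (consMat A *ᵥ Q.vec) k = (A k).vec ⬝ᵥ Q.vec := rfl
    rw [this, vec_dotProduct_vec, (hA k).eq]
  rw [h1]
  set W := (1 / 2 : ℝ) • (Z * diagonal (fun i => ∑ l, y l * a l i) +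
        diagonal (fun i => ∑ l, y l * a l i) * Z) with hW
  have h2 : (A k * (R * W * Rᵀ)).trace = (diagonal (a k) * W).trace := by
    rw [← h.diag k]
    rw [show A k * (R * W * Rᵀ) = (A k * R * W) * Rᵀ by simp only [Matrix.mul_assoc]]
    rw [Matrix.trace_mul_comm]
    simp only [Matrix.mul_assoc]
  rw [h2, Matrix.trace]
  refine Finset.sum_congr rfl fun i _ => ?_
  simp only [Matrix.diag_apply, Matrix.diagonal_mul, hW, Matrix.smul_apply, Matrix.add_apply,
    Matrix.mul_diagonal, smul_eq_mul]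
  ring

theorem Red.gram_hermitian (h : Red C A R a) (X : Matrix (Fin n) (Fin n) ℝ) (hX : Xᵀ = X) :
    (consMat A * condG C X * (consMat A)ᵀ).IsHermitian := by
  have h1 : (condG C X)ᵀ = condG C X := by
    unfold condG
    rw [Matrix.transpose_smul, Matrix.transpose_add, ← Matrix.kroneckerMap_transpose,
      ← Matrix.kroneckerMap_transpose, h.invT, hX]
  rw [Matrix.IsHermitian, Matrix.conjTranspose_eq_transpose_of_trivial, Matrix.transpose_mul,
    Matrix.transpose_mul, Matrix.transpose_transpose, h1, Matrix.mul_assoc]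

theorem pinv_solves {N P : Matrix (Fin m) (Fin m) ℝ} (hP : IsPinv N P) {b η : Fin m → ℝ}
    (h : N *ᵥ η = b) : N *ᵥ (P *ᵥ b) = b := by
  rw [← h, Matrix.mulVec_mulVec, Matrix.mulVec_mulVec, hP.1]

theorem span_ext (a : Fin m → Fin n → ℝ) (u u' : Fin n → ℝ)
    (h : ∀ k, ∑ i, u i * a k i = ∑ i, u' i * a k i) :
    ∀ v ∈ Submodule.span ℝ (Set.range a), ∑ i, u i * v i = ∑ i, u' i * v i := by
  intro v hv
  induction hv using Submodule.span_induction with
  | mem v hv =>
    obtain ⟨k, rfl⟩ := hv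
    exact h k
  | zero => simp
  | add v v' _ _ h1 h2 =>
    simp only [Pi.add_apply, mul_add, Finset.sum_add_distrib, h1, h2]
  | smul c v _ h1 =>
    simp only [Pi.smul_apply, smul_eq_mul]
    have e : ∀ q : Fin n → ℝ, ∑ i, q i * (c * v i) = c * ∑ i, q i * v i := by
      intro q
      rw [Finset.mul_sum]
      exact Finset.sum_congr rfl fun i _ => by ring
    rw [e, e, h1]

theorem mu_unique (a : Fin m → Fin n → ℝ) (z μ μ' : Fin n → ℝ) (hz : ∀ i, 0 < z i)
    (hμ : μ ∈ Submodule.span ℝ (Set.range a)) (hμ' : μ' ∈ Submodule.span ℝ (Set.range a))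
    (h : ∀ k, ∑ i, a k i * (z i * μ i) = ∑ i, a k i * (z i * μ' i)) : μ = μ' := by
  have h1 := span_ext a (fun i => z i * μ i) (fun i => z i * μ' i) (fun k => by
    have := h k
    simp only [mul_comm (a k _)] at this
    exact this) (μ - μ') (Submodule.sub_mem _ hμ hμ')
  have h2 : ∑ i, z i * (μ i - μ' i) ^ 2 = 0 := by
    have : ∑ i, z i * (μ i - μ' i) ^ 2 = ∑ i, (fun i => z i * μ i) i * (μ - μ') i -
        ∑ i, (fun i => z i * μ' i) i * (μ - μ') i := by
      rw [← Finset.sum_sub_distrib]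
      refine Finset.sum_congr rfl fun i _ => ?_
      simp only [Pi.sub_apply]
      ring
    rw [this, h1, sub_self]
  funext i
  have h3 := (Finset.sum_eq_zero_iff_of_nonneg (fun i _ => by
    have := (hz i).le
    positivity)).1 h2 i (Finset.mem_univ i)
  rcases mul_eq_zero.1 h3 with h4 | h4
  · exact absurd h4 (hz i).ne'
  · exact sub_eq_zero.1 (pow_eq_zero_iff two_ne_zero |>.1 h4)

theorem deriv_conj (K : Matrix (Fin n) (Fin n) ℝ) (Z : ℝ → Matrix (Fin n) (Fin n) ℝ)
    (Z' : Matrix (Fin n) (Fin n) ℝ) (S : Set ℝ) (t : ℝ)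
    (h : ∀ i j, HasDerivWithinAt (fun τ => Z τ i j) (Z' i j) S t) (i j : Fin n) :
    HasDerivWithinAt (fun τ => (K * Z τ * Kᵀ) i j) ((K * Z' * Kᵀ) i j) S t := by
  have e : ∀ Q : Matrix (Fin n) (Fin n) ℝ, (K * Q * Kᵀ) i j =
      ∑ q, (∑ p, K i p * Q p q) * K j q := by
    intro Q
    simp [Matrix.mul_apply]
  simp only [e]
  refine HasDerivWithinAt.fun_sum fun q _ => ?_
  refine HasDerivWithinAt.mul_const ?_ _
  refine HasDerivWithinAt.fun_sum fun p _ => ?_
  exact (h p q).const_mul _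

theorem deriv_vec_iff (X : ℝ → Matrix (Fin n) (Fin n) ℝ) (D : Matrix (Fin n) (Fin n) ℝ)
    (S : Set ℝ) (t : ℝ) :
    HasDerivWithinAt (fun τ => (X τ).vec) D.vec S t ↔
      ∀ i j, HasDerivWithinAt (fun τ => X τ i j) (D i j) S t := by
  rw [hasDerivWithinAt_pi]
  constructor
  · intro h i j
    exact h (j, i)
  · rintro h ⟨j, i⟩
    exact h i j

end aux

section main

variable {C : Matrix (Fin n) (Fin n) ℝ} {A : Fin m → Matrix (Fin n) (Fin n) ℝ}
  {R : Matrix (Fin n) (Fin n) ℝ} {a : Fin m → Fin n → ℝ}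

/-- inverse of `R` -/
theorem Red.left_inv (h : Red C A R a) : (Rᵀ * C) * R = 1 := h.one

theorem Red.right_inv (h : Red C A R a) : R * (Rᵀ * C) = 1 := mul_eq_one_comm.1 h.one

theorem Red.recover (h : Red C A R a) (X : Matrix (Fin n) (Fin n) ℝ) :
    R * ((Rᵀ * C) * X * (Rᵀ * C)ᵀ) * Rᵀ = X := by
  have h1 : (Rᵀ * C)ᵀ * Rᵀ = 1 := by
    rw [← Matrix.transpose_mul, h.right_inv, Matrix.transpose_one]
  calc R * ((Rᵀ * C) * X * (Rᵀ * C)ᵀ) * Rᵀ
      = (R * (Rᵀ * C)) * X * ((Rᵀ * C)ᵀ * Rᵀ) := by simp only [Matrix.mul_assoc]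
    _ = X := by rw [h.right_inv, h1, Matrix.one_mul, Matrix.mul_one]

theorem Red.recover' (h : Red C A R a) (Z : Matrix (Fin n) (Fin n) ℝ) :
    (Rᵀ * C) * (R * Z * Rᵀ) * (Rᵀ * C)ᵀ = Z := by
  have h1 : Rᵀ * (Rᵀ * C)ᵀ = 1 := by
    rw [← Matrix.transpose_mul, h.left_inv, Matrix.transpose_one]
  calc (Rᵀ * C) * (R * Z * Rᵀ) * (Rᵀ * C)ᵀ
      = ((Rᵀ * C) * R) * Z * (Rᵀ * (Rᵀ * C)ᵀ) := by simp only [Matrix.mul_assoc]
    _ = Z := by rw [h.left_inv, h1, Matrix.one_mul, Matrix.mul_one]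

theorem posDef_conj {K X : Matrix (Fin n) (Fin n) ℝ} (hX : X.PosDef) (hK : IsUnit K) :
    (K * X * Kᵀ).PosDef := by
  have := hX.mul_mul_conjTranspose_same (B := K) (Matrix.vecMul_injective_of_isUnit hK)
  rwa [Matrix.conjTranspose_eq_transpose_of_trivial] at this

theorem posSemidef_conj {K X : Matrix (Fin n) (Fin n) ℝ} (hX : X.PosSemidef) :
    (K * X * Kᵀ).PosSemidef := by
  have := hX.mul_mul_conjTranspose_same K
  rwa [Matrix.conjTranspose_eq_transpose_of_trivial] at this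

theorem Red.unit (h : Red C A R a) : IsUnit R :=
  IsUnit.of_mul_eq_one_right _ h.one

theorem Red.unitQ (h : Red C A R a) : IsUnit (Rᵀ * C) :=
  IsUnit.of_mul_eq_one _ h.one

theorem Red.trace_cons (h : Red C A R a) (Z : Matrix (Fin n) (Fin n) ℝ) (l : Fin m) :
    (A l * (R * Z * Rᵀ)).trace = ∑ i, Z i i * a l i := by
  have h2 : (A l * (R * Z * Rᵀ)).trace = (diagonal (a l) * Z).trace := by
    rw [← h.diag l]
    rw [show A l * (R * Z * Rᵀ) = (A l * R * Z) * Rᵀ by simp only [Matrix.mul_assoc]]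
    rw [Matrix.trace_mul_comm]
    simp only [Matrix.mul_assoc]
  rw [h2, Matrix.trace]
  refine Finset.sum_congr rfl fun i _ => ?_
  simp [Matrix.diag_apply, Matrix.diagonal_mul, mul_comm]

theorem Red.trace_obj (h : Red C A R a) (Z : Matrix (Fin n) (Fin n) ℝ) :
    (C * (R * Z * Rᵀ)).trace = ∑ i, Z i i := by
  rw [show C * (R * Z * Rᵀ) = (C * R * Z) * Rᵀ by simp only [Matrix.mul_assoc]]
  rw [Matrix.trace_mul_comm]
  rw [show Rᵀ * (C * R * Z) = (Rᵀ * C * R) * Z by simp only [Matrix.mul_assoc], h.one,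
    Matrix.one_mul]
  rfl

/-- the point equation: if `μ` in the span satisfies the moment equation at `Z`, then the
right side of the dynamic is the conjugate of `½(Zμ + μZ) - Z`. -/
theorem Red.solves (h : Red C A R a) (hA : ∀ l, (A l).IsSymm) (b : Fin m → ℝ)
    (Z : Matrix (Fin n) (Fin n) ℝ) (hZ : Z.PosDef) (μ : Fin n → ℝ)
    (hμ : μ ∈ Submodule.span ℝ (Set.range a))
    (hb : ∀ k, ∑ i, a k i * (Z i i * μ i) = b k)
    (P : Matrix (Fin m) (Fin m) ℝ)
    (hP : IsPinv (consMat A * condG C (R * Z * Rᵀ) * (consMat A)ᵀ) P) :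
    (condG C (R * Z * Rᵀ) * (consMat A)ᵀ * P) *ᵥ b - (R * Z * Rᵀ).vec =
      (R * (Matrix.of fun i j => (-1 + (μ i + μ j) / 2) * Z i j) * Rᵀ).vec := by
  have hZt : Zᵀ = Z := by
    have := hZ.isHermitian
    rwa [Matrix.IsHermitian, Matrix.conjTranspose_eq_transpose_of_trivial] at this
  have hzpos : ∀ i, 0 < Z i i := fun i => hZ.diag_pos
  obtain ⟨η, hη⟩ := (Submodule.mem_span_range_iff_exists_fun ℝ).1 hμ
  have hη' : ∀ i, ∑ l, η l * a l i = μ i := by
    intro i
    rw [← hη]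
    simp
  have hNη : (consMat A * condG C (R * Z * Rᵀ) * (consMat A)ᵀ) *ᵥ η = b := by
    funext k
    rw [h.gram hA Z hZt η k, ← hb k]
    exact Finset.sum_congr rfl fun i _ => by rw [hη' i]
  have hNP := pinv_solves hP hNη
  set y : Fin m → ℝ := P *ᵥ b with hy
  have hμy : (fun i => ∑ l, y l * a l i) = μ := by
    refine mu_unique a (fun i => Z i i) _ _ hzpos ?_ hμ fun k => ?_
    · refine (Submodule.mem_span_range_iff_exists_fun ℝ).2 ⟨y, ?_⟩
      funext i
      simp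
    · rw [hb k, ← congrFun hNP k, h.gram hA Z hZt y k]
  rw [← Matrix.mulVec_mulVec, ← hy, h.rhs Z hZt y, hμy, ← Matrix.vec_sub]
  congr 1
  rw [← Matrix.sub_mul, ← Matrix.mul_sub]
  congr 2
  ext i j
  simp only [Matrix.sub_apply, Matrix.smul_apply, Matrix.add_apply, Matrix.mul_diagonal,
    Matrix.diagonal_mul, smul_eq_mul, Matrix.of_apply]
  ring

/-- the reduced trajectory -/
noncomputable def curveZ (Z₀ : Matrix (Fin n) (Fin n) ℝ) (s : ℝ → Fin n → ℝ) (t : ℝ) :
    Matrix (Fin n) (Fin n) ℝ :=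
  Matrix.of fun i j => Z₀ i j * Real.exp (-t + (s t i + s t j) / 2)

theorem curveZ_eq (Z₀ : Matrix (Fin n) (Fin n) ℝ) (s : ℝ → Fin n → ℝ) (t : ℝ) :
    curveZ Z₀ s t = diagonal (fun i => Real.exp ((-t + s t i) / 2)) * Z₀ *
      (diagonal (fun i => Real.exp ((-t + s t i) / 2)))ᵀ := by
  ext i j
  rw [Matrix.diagonal_transpose, Matrix.mul_diagonal, Matrix.diagonal_mul]
  simp only [curveZ, Matrix.of_apply]
  rw [show -t + (s t i + s t j) / 2 = (-t + s t i) / 2 + (-t + s t j) / 2 by ring, Real.exp_add]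
  ring

theorem curveZ_posDef (Z₀ : Matrix (Fin n) (Fin n) ℝ) (hZ₀ : Z₀.PosDef) (s : ℝ → Fin n → ℝ)
    (t : ℝ) : (curveZ Z₀ s t).PosDef := by
  rw [curveZ_eq]
  refine posDef_conj hZ₀ ?_
  rw [Matrix.isUnit_iff_isUnit_det, Matrix.det_diagonal]
  exact (Finset.prod_ne_zero_iff.2 fun i _ => (Real.exp_pos _).ne').isUnit

theorem curveZ_diag (Z₀ : Matrix (Fin n) (Fin n) ℝ) (s : ℝ → Fin n → ℝ) (t : ℝ) (i : Fin n) :
    curveZ Z₀ s t i i = Z₀ i i * Real.exp (-t + s t i) := by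
  simp only [curveZ, Matrix.of_apply]
  congr 2
  ring

theorem curveZ_deriv (Z₀ : Matrix (Fin n) (Fin n) ℝ) (s s' : ℝ → Fin n → ℝ) (t : ℝ)
    (hd : ∀ i, HasDerivWithinAt (fun τ => s τ i) (s' t i) (Ici 0) t) (i j : Fin n) :
    HasDerivWithinAt (fun τ => curveZ Z₀ s τ i j)
      ((Matrix.of fun i j => (-1 + (s' t i + s' t j) / 2) * curveZ Z₀ s t i j) i j)
      (Ici 0) t := by
  simp only [curveZ, Matrix.of_apply]
  have h1 : HasDerivWithinAt (fun τ : ℝ => -τ + (s τ i + s τ j) / 2)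
      (-1 + (s' t i + s' t j) / 2) (Ici 0) t :=
    ((hasDerivWithinAt_id t _).neg).add (((hd i).add (hd j)).div_const 2)
  exact ((h1.exp).const_mul (Z₀ i j)).congr_deriv (by ring)

theorem main_of_red (h : Red C A R a) (hA : ∀ l, (A l).IsSymm) (b : Fin m → ℝ)
    (hfeas : ∃ F, Feasible A b F) (X₀ : Matrix (Fin n) (Fin n) ℝ) (hX₀ : X₀.PosDef) :
    ∃ X : ℝ → Matrix (Fin n) (Fin n) ℝ, X 0 = X₀ ∧ (∀ t, 0 ≤ t → SolvesAt C A b X t) ∧
      (∀ (T : ℝ) (Y : ℝ → Matrix (Fin n) (Fin n) ℝ), Y 0 = X₀ →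
        (∀ t, 0 ≤ t → t < T → SolvesAt C A b Y t) → ∀ t, 0 ≤ t → t < T → Y t = X t) ∧
      ∃ L, Optimal C A b L ∧ Tendsto X atTop (𝓝 L) := by
  set Q : Matrix (Fin n) (Fin n) ℝ := Rᵀ * C with hQ
  set V := Submodule.span ℝ (Set.range a) with hV
  have hak : ∀ k, a k ∈ V := fun k => Submodule.subset_span ⟨k, rfl⟩
  set Z₀ := Q * X₀ * Qᵀ with hZ₀def
  have hZ₀ : Z₀.PosDef := posDef_conj hX₀ h.unitQ
  obtain ⟨F, hF, hFb⟩ := hfeas
  set x : Fin n → ℝ := fun i => (Q * F * Qᵀ) i i with hxdef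
  have hx : ∀ i, 0 ≤ x i := fun i => (posSemidef_conj hF).diag_nonneg
  have hxb : ∀ k, ∑ i, x i * a k i = b k := by
    intro k
    rw [← hFb k]
    have := h.trace_cons (Q * F * Qᵀ) k
    rw [hQ, h.recover F] at this
    exact this.symm
  set w : Fin n → ℝ := fun i => Z₀ i i with hwdef
  have hw : ∀ i, 0 < w i := fun i => hZ₀.diag_pos
  obtain ⟨s, s', hs0, hsall⟩ := Pool.Agent.Lib.MP_e757b3_an_h48.exists_flow V w x hw hx
  have hs : ∀ t, 0 ≤ t → s t ∈ V := fun t ht => (hsall t ht).1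
  have hs' : ∀ t, 0 ≤ t → s' t ∈ V := fun t ht => (hsall t ht).2.1
  have hsd : ∀ t, 0 ≤ t → ∀ i, HasDerivWithinAt (fun τ => s τ i) (s' t i) (Ici 0) t :=
    fun t ht => (hsall t ht).2.2.1
  have hmom : ∀ t, 0 ≤ t → ∀ v ∈ V, ∑ i, w i * Real.exp (-t + s t i) * v i =
      ∑ i, ((1 - Real.exp (-t)) * x i + Real.exp (-t) * w i) * v i :=
    fun t ht => (hsall t ht).2.2.2.1
  have hmom' : ∀ t, 0 ≤ t → ∀ v ∈ V, ∑ i, w i * Real.exp (-t + s t i) * s' t i * v i =
      ∑ i, x i * v i := fun t ht => (hsall t ht).2.2.2.2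
  set Z : ℝ → Matrix (Fin n) (Fin n) ℝ := curveZ Z₀ s with hZdef
  have hZpd : ∀ t, (Z t).PosDef := fun t => curveZ_posDef Z₀ hZ₀ s t
  have hZ0 : Z 0 = Z₀ := by
    ext i j
    simp [hZdef, curveZ, hs0]
  have hRX : R * Z₀ * Rᵀ = X₀ := by rw [hZ₀def, hQ]; exact h.recover X₀
  have hZmom : ∀ t, 0 ≤ t → ∀ k, ∑ i, a k i * (Z t i i * s' t i) = b k := by
    intro t ht k
    rw [← hxb k, ← hmom' t ht (a k) (hak k)]
    refine Finset.sum_congr rfl fun i _ => ?_
    rw [hZdef, curveZ_diag]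
    ring
  refine ⟨fun t => R * Z t * Rᵀ, ?_, ?_, ?_, ?_⟩
  · simp only [hZ0, hRX]
  · intro t ht
    have hpd : (R * Z t * Rᵀ).PosDef := posDef_conj (hZpd t) h.unit
    refine ⟨hpd, ?_⟩
    have hsymm : (R * Z t * Rᵀ)ᵀ = R * Z t * Rᵀ := by
      have := hpd.isHermitian
      rwa [Matrix.IsHermitian, Matrix.conjTranspose_eq_transpose_of_trivial] at this
    obtain ⟨P, hP⟩ := Pool.Agent.Lib.MP_e757b3_an_h48.exists_isPinv _ (h.gram_hermitian (R * Z t * Rᵀ) hsymm)
    refine ⟨P, hP, ?_⟩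
    rw [h.solves hA b (Z t) (hZpd t) (s' t) (hs' t ht) (hZmom t ht) P hP]
    refine (deriv_vec_iff (fun τ => R * Z τ * Rᵀ) _ _ _).2 fun i j => ?_
    exact deriv_conj R Z _ _ t (fun i j => curveZ_deriv Z₀ s s' t (hsd t ht) i j) i j
  · -- uniqueness
    intro T Y hY0 hY
    -- reduced solution
    set Yt : ℝ → Matrix (Fin n) (Fin n) ℝ := fun t => Q * Y t * Qᵀ with hYt
    have hYrec : ∀ t, R * Yt t * Rᵀ = Y t := fun t => by
      simp only [hYt, hQ]; exact h.recover (Y t)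
    have hYt0 : Yt 0 = Z₀ := by simp only [hYt, hY0, hZ₀def]
    have hkey : ∀ t, 0 ≤ t → t < T → ∃ μ ∈ V, (Yt t).PosDef ∧
        (∀ k, ∑ i, a k i * (Yt t i i * μ i) = b k) ∧
        ∀ i j, HasDerivWithinAt (fun τ => Yt τ i j) ((-1 + (μ i + μ j) / 2) * Yt t i j)
          (Ici 0) t := by
      intro t ht htT
      obtain ⟨hpd, P, hP, hd⟩ := hY t ht htT
      have hYpd : (Yt t).PosDef := posDef_conj hpd h.unitQ
      obtain ⟨σ, σ', hσ0, hσall⟩ := Pool.Agent.Lib.MP_e757b3_an_h48.exists_flow V (fun i => Yt t i i) x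
        (fun i => hYpd.diag_pos) hx
      have hσ' := (hσall 0 le_rfl).2.1
      have hσm := (hσall 0 le_rfl).2.2.2.2
      have hmomY : ∀ k, ∑ i, a k i * (Yt t i i * σ' 0 i) = b k := by
        intro k
        rw [← hxb k, ← hσm (a k) (hak k)]
        refine Finset.sum_congr rfl fun i _ => ?_
        rw [hσ0]
        simp
        ring
      refine ⟨σ' 0, hσ', hYpd, hmomY, ?_⟩
      have hP' : IsPinv (consMat A * condG C (R * Yt t * Rᵀ) * (consMat A)ᵀ) P := by
        rw [hYrec]; exact hP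
      have h1 := h.solves hA b (Yt t) hYpd (σ' 0) hσ' hmomY P hP'
      rw [hYrec] at h1
      rw [h1] at hd
      have h2 := (deriv_vec_iff Y _ _ _).1 hd
      intro i j
      have h3 := deriv_conj Q Y _ _ t h2 i j
      rw [hQ, h.recover'] at h3
      exact h3
    choose! μ hμV hYpd hYm hYd using hkey
    -- moments
    have hYmom : ∀ t, 0 ≤ t → t < T → ∀ k, ∑ i, Yt t i i * a k i =
        ∑ i, ((1 - Real.exp (-t)) * x i + Real.exp (-t) * w i) * a k i := by
      intro t ht htT k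
      have hd : ∀ τ, 0 ≤ τ → τ < T → HasDerivWithinAt
          (fun τ => Real.exp τ * (∑ i, Yt τ i i * a k i - b k)) 0 (Ici 0) τ := by
        intro τ hτ hτT
        have h1 : HasDerivWithinAt (fun τ => ∑ i, Yt τ i i * a k i)
            (∑ i, (-1 + (μ τ i + μ τ i) / 2) * Yt τ i i * a k i) (Ici 0) τ :=
          HasDerivWithinAt.fun_sum fun i _ => (hYd τ hτ hτT i i).mul_const _
        have h2 : ∑ i, (-1 + (μ τ i + μ τ i) / 2) * Yt τ i i * a k i =
            b k - ∑ i, Yt τ i i * a k i := by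
          rw [← hYm τ hτ hτT k, ← Finset.sum_sub_distrib]
          exact Finset.sum_congr rfl fun i _ => by ring
        rw [h2] at h1
        exact (((Real.hasDerivAt_exp τ).hasDerivWithinAt (s := Ici 0)).mul
          (h1.sub_const (b k))).congr_deriv (by ring)
      have h1 := const_of_deriv_zero _ T t ht htT hd
      simp only [Real.exp_zero, one_mul, hYt0] at h1
      have h2 : Real.exp (-t) * Real.exp t = 1 := by rw [← Real.exp_add]; simp
      have h3 : ∑ i, ((1 - Real.exp (-t)) * x i + Real.exp (-t) * w i) * a k i =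
          (1 - Real.exp (-t)) * b k + Real.exp (-t) * ∑ i, Z₀ i i * a k i := by
        rw [← hxb k, Finset.mul_sum, Finset.mul_sum, ← Finset.sum_add_distrib]
        exact Finset.sum_congr rfl fun i _ => by simp only [hwdef]; ring
      rw [h3]
      have h4 : Real.exp (-t) * (Real.exp t * (∑ i, Yt t i i * a k i - b k)) =
          ∑ i, Yt t i i * a k i - b k := by
        rw [← mul_assoc, h2, one_mul]
      rw [h1] at h4
      linarith
    -- diagonal entries agree
    have hdiag : ∀ t, 0 ≤ t → t < T → ∀ i, Yt t i i = Z t i i := by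
      intro t ht htT
      set c : Fin n → ℝ := fun i => Yt t i i - Z t i i with hc
      have hcV : ∀ v ∈ V, ∑ i, c i * v i = 0 := by
        intro v hv
        have h1 := span_ext a (fun i => Yt t i i)
          (fun i => (1 - Real.exp (-t)) * x i + Real.exp (-t) * w i) (hYmom t ht htT) v hv
        have h2 := hmom t ht v hv
        have h3 : ∑ i, c i * v i = ∑ i, Yt t i i * v i -
            ∑ i, w i * Real.exp (-t + s t i) * v i := by
          rw [← Finset.sum_sub_distrib]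
          refine Finset.sum_congr rfl fun i _ => ?_
          simp only [hc, hZdef, curveZ_diag, hwdef]
          ring
        rw [h3, h2, ← h1, sub_self]
      have hZdiag : ∀ τ i, Z τ i i = w i * Real.exp (-τ + s τ i) := by
        intro τ i
        rw [hZdef, curveZ_diag]
      have hg : ∀ τ, 0 ≤ τ → τ < T → HasDerivWithinAt
          (fun τ => ∑ i, c i * (Real.log (Yt τ i i) - (Real.log (w i) + (-τ + s τ i)))) 0
          (Ici 0) τ := by
        intro τ hτ hτT
        have h1 : HasDerivWithinAt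
          (fun τ => ∑ i, c i * (Real.log (Yt τ i i) - (Real.log (w i) + (-τ + s τ i))))
          (∑ i, c i * ((-1 + (μ τ i + μ τ i) / 2) * Yt τ i i / Yt τ i i -
            (-1 + s' τ i))) (Ici 0) τ := by
          refine HasDerivWithinAt.fun_sum fun i _ => ?_
          refine HasDerivWithinAt.const_mul _ ?_
          refine HasDerivWithinAt.sub ?_ ?_
          · exact (hYd τ hτ hτT i i).log ((hYpd τ hτ hτT).diag_pos (i := i)).ne'
          · exact (((hasDerivWithinAt_id τ _).neg).add (hsd τ hτ i)).const_add _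
        have h2 : ∑ i, c i * ((-1 + (μ τ i + μ τ i) / 2) * Yt τ i i / Yt τ i i -
            (-1 + s' τ i)) = ∑ i, c i * (μ τ - s' τ) i := by
          refine Finset.sum_congr rfl fun i _ => ?_
          have := ((hYpd τ hτ hτT).diag_pos (i := i)).ne'
          rw [mul_div_assoc, div_self this, Pi.sub_apply]
          ring
        rw [h2, hcV _ (Submodule.sub_mem _ (hμV τ hτ hτT) (hs' τ hτ))] at h1
        exact h1
      have h1 := const_of_deriv_zero _ T t ht htT hg
      have h2 : ∑ i, c i * (Real.log (Yt t i i) - Real.log (Z t i i)) = 0 := by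
        have e1 : ∑ i, c i * (Real.log (Yt t i i) - Real.log (Z t i i)) =
            ∑ i, c i * (Real.log (Yt t i i) - (Real.log (w i) + (-t + s t i))) := by
          refine Finset.sum_congr rfl fun i _ => ?_
          rw [hZdiag, Real.log_mul (hw i).ne' (Real.exp_pos _).ne', Real.log_exp]
        rw [e1, h1]
        refine Finset.sum_eq_zero fun i _ => ?_
        simp [hYt0, hs0, hwdef]
      have h3 : ∀ i, 0 ≤ c i * (Real.log (Yt t i i) - Real.log (Z t i i)) := by
        intro i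
        have hy := (hYpd t ht htT).diag_pos (i := i)
        have hz := (hZpd t).diag_pos (i := i)
        simp only [hc]
        rcases le_total (Yt t i i) (Z t i i) with hle | hle
        · have := Real.log_le_log hy hle
          nlinarith
        · have := Real.log_le_log hz hle
          apply mul_nonneg <;> linarith
      intro i
      have h4 := (Finset.sum_eq_zero_iff_of_nonneg (fun i _ => h3 i)).1 h2 i (Finset.mem_univ i)
      rcases mul_eq_zero.1 h4 with h5 | h5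
      · exact sub_eq_zero.1 h5
      · exact Real.log_injOn_pos (Set.mem_Ioi.2 ((hYpd t ht htT).diag_pos))
          (Set.mem_Ioi.2 ((hZpd t).diag_pos)) (sub_eq_zero.1 h5)
    have hμs : ∀ t, 0 ≤ t → t < T → μ t = s' t := by
      intro t ht htT
      refine mu_unique a (fun i => Z t i i) _ _ (fun i => (hZpd t).diag_pos) (hμV t ht htT)
        (hs' t ht) fun k => ?_
      rw [hZmom t ht k, ← hYm t ht htT k]
      exact Finset.sum_congr rfl fun i _ => by rw [hdiag t ht htT i]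
    intro t ht htT
    have hYZ : Yt t = Z t := by
      ext i j
      have hd : ∀ τ, 0 ≤ τ → τ < T → HasDerivWithinAt
          (fun τ => Yt τ i j * Real.exp (-(-τ + (s τ i + s τ j) / 2))) 0 (Ici 0) τ := by
        intro τ hτ hτT
        have h1 : HasDerivWithinAt (fun τ : ℝ => -(-τ + (s τ i + s τ j) / 2))
            (-(-1 + (s' τ i + s' τ j) / 2)) (Ici 0) τ :=
          (((hasDerivWithinAt_id τ _).neg).add
            (((hsd τ hτ i).add (hsd τ hτ j)).div_const 2)).neg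
        exact ((hYd τ hτ hτT i j).mul h1.exp).congr_deriv (by rw [hμs τ hτ hτT]; ring)
      have h1 := const_of_deriv_zero _ T t ht htT hd
      simp only [hYt0, hs0] at h1
      have h2 : Yt t i j * Real.exp (-(-t + (s t i + s t j) / 2)) = Z₀ i j := by
        rw [h1]; simp
      simp only [hZdef, curveZ, Matrix.of_apply]
      rw [← h2, mul_assoc, ← Real.exp_add]
      simp
    rw [← hYrec t, hYZ]
  · -- convergence
    obtain ⟨α, hα, hαF, hαO⟩ := Pool.Agent.Lib.MP_e757b3_an_h48.flow_converges V w x s hw hs hmom hx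
    have hαi : ∀ i, Tendsto (fun t => Pool.Agent.Lib.MP_e757b3_an_h48.zz w s t i) atTop (𝓝 (α i)) := fun i =>
      (tendsto_pi_nhds.1 hα) i
    set D : Fin n → ℝ := fun i => √(α i / w i) with hD
    set Zi : Matrix (Fin n) (Fin n) ℝ := diagonal D * Z₀ * (diagonal D)ᵀ with hZi
    have hZiT : Tendsto Z atTop (𝓝 Zi) := by
      refine tendsto_pi_nhds.2 fun i => tendsto_pi_nhds.2 fun j => ?_
      have hE : ∀ i, Tendsto (fun t => √(Pool.Agent.Lib.MP_e757b3_an_h48.zz w s t i / w i)) atTop (𝓝 (D i)) :=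
        fun i => ((hαi i).div_const (w i)).sqrt
      have hE' : ∀ i t, √(Pool.Agent.Lib.MP_e757b3_an_h48.zz w s t i / w i) = Real.exp ((-t + s t i) / 2) := by
        intro i t
        unfold Pool.Agent.Lib.MP_e757b3_an_h48.zz
        rw [mul_div_assoc, mul_comm, div_mul_cancel₀ _ (hw i).ne', Real.exp_half]
      have e : (fun t => Z t i j) = fun t => √(Pool.Agent.Lib.MP_e757b3_an_h48.zz w s t i / w i) * Z₀ i j *
          √(Pool.Agent.Lib.MP_e757b3_an_h48.zz w s t j / w j) := by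
        funext t
        rw [hE', hE', hZdef, curveZ_eq, Matrix.diagonal_transpose, Matrix.mul_diagonal,
          Matrix.diagonal_mul]
      have e2 : Zi i j = D i * Z₀ i j * D j := by
        rw [hZi, Matrix.diagonal_transpose, Matrix.mul_diagonal, Matrix.diagonal_mul]
      rw [e2]
      have := ((hE i).mul_const (Z₀ i j)).mul (hE j)
      rw [← e] at this
      exact this
    have hZid : ∀ i, Zi i i = α i := by
      intro i
      rw [hZi, Matrix.diagonal_transpose, Matrix.mul_diagonal, Matrix.diagonal_mul]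
      have h1 : D i * D i = α i / w i := Real.mul_self_sqrt (div_nonneg (hαF.1 i) (hw i).le)
      have h2 : D i * Z₀ i i * D i = (D i * D i) * w i := by simp only [hwdef]; ring
      rw [h2, h1, div_mul_cancel₀ _ (hw i).ne']
    refine ⟨R * Zi * Rᵀ, ⟨⟨?_, ?_⟩, ?_⟩, ?_⟩
    · exact posSemidef_conj (posSemidef_conj hZ₀.posSemidef)
    · intro l
      rw [h.trace_cons Zi l, ← hxb l, ← hαF.2 (a l) (hak l)]
      exact Finset.sum_congr rfl fun i _ => by rw [hZid i]
    · intro F' hF'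
      have h1 := h.trace_obj (Q * F' * Qᵀ)
      rw [hQ, h.recover F'] at h1
      rw [h.trace_obj Zi, h1]
      have h2 : Pool.Agent.Lib.MP_e757b3_an_h48.Feas V x (fun i => (Q * F' * Qᵀ) i i) := by
        refine ⟨fun i => (posSemidef_conj hF'.1).diag_nonneg, ?_⟩
        refine span_ext a _ _ fun k => ?_
        rw [hxb k, ← hF'.2 k]
        have := h.trace_cons (Q * F' * Qᵀ) k
        rw [hQ, h.recover F'] at this
        exact this.symm
      have h3 := hαO _ h2
      calc ∑ i, Zi i i = ∑ i, α i := Finset.sum_congr rfl fun i _ => hZid i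
        _ ≤ _ := h3
    · exact ((continuous_const.matrix_mul continuous_id).matrix_mul
        continuous_const).continuousAt.tendsto.comp hZiT

end main

/-- **Theorem.** The first-ansatz Physarum dynamic of a positive SDP whose constraint matrices
commute relative to `C⁻¹` has, from every positive definite start, a unique positive definite
trajectory, defined for all times and converging to an optimal solution. -/
theorem result (n m : ℕ) (C : Matrix (Fin n) (Fin n) ℝ) (hC : C.PosDef)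
    (A : Fin m → Matrix (Fin n) (Fin n) ℝ) (hA : ∀ l, (A l).IsSymm) (b : Fin m → ℝ)
    (hcomm : ∀ k l, A k * C⁻¹ * A l = A l * C⁻¹ * A k)
    (hfeas : ∃ F, Feasible A b F) (X₀ : Matrix (Fin n) (Fin n) ℝ) (hX₀ : X₀.PosDef) :
    ∃ X : ℝ → Matrix (Fin n) (Fin n) ℝ, X 0 = X₀ ∧ (∀ t, 0 ≤ t → SolvesAt C A b X t) ∧
      (∀ (T : ℝ) (Y : ℝ → Matrix (Fin n) (Fin n) ℝ), Y 0 = X₀ →
        (∀ t, 0 ≤ t → t < T → SolvesAt C A b Y t) → ∀ t, 0 ≤ t → t < T → Y t = X t) ∧
      ∃ L, Optimal C A b L ∧ Tendsto X atTop (𝓝 L) := by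
  obtain ⟨R, a, h1, h2, h3⟩ := Pool.Agent.Lib.MP_e757b3_an_h48.exists_reduction C hC A hA hcomm
  exact main_of_red ⟨h1, h2, h3⟩ hA b hfeas X₀ hX₀

end Pool.Agent.Results.MP_e757b3_an.CommutingConstraints
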