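import Pool.Agent.Lib.MP_e757b3_ae.MB

open Matrix Filter Topology
open Pool.Agent.Lib.MP_e757b3_ae

/-! # A criterion for the first-ansatz Physarum dynamic of a positive SDP

For `X ⪰ 0` let `N(X) = {μ ≠ 0 | (∑ l, μ l • A l) * X = 0}`. Along the dynamic the right-hand side
moves on the segment from `𝒜 vec X₀` to `b`. Both bullets of the question hold if `N(X)` is empty
for every feasible `X` and for every nonzero recession direction `X` and the following is true.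
Over each right-hand side strictly inside the segment only countably many `X ⪰ 0` have
`N(X) ≠ ∅`, or all their sets `N(X)` lie on one line. For each such `X` the set `N(X) ∪ {0}` is a
line not orthogonal to `b`. -/

namespace Pool.Agent.Results.MP_e757b3_an.Criterion

theorem result {n m : ℕ} (C : Matrix (Fin n) (Fin n) ℝ) (A : Fin m → Matrix (Fin n) (Fin n) ℝ)
    (b : Fin m → ℝ) (X₀ : Matrix (Fin n) (Fin n) ℝ) (hC : C.PosDef) (hA : ∀ l, (A l).IsSymm)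
    (hX₀ : X₀.PosDef) (hfeas : ∃ F, IsFeasible A b F)
    (h1 : ∀ X : Matrix (Fin n) (Fin n) ℝ, X.PosSemidef → (∀ l, (A l * X).trace = b l) →
      ∀ μ : Fin m → ℝ, (∑ l, μ l • A l) * X = 0 → μ = 0)
    (h2 : ∀ X : Matrix (Fin n) (Fin n) ℝ, X.PosSemidef → X ≠ 0 →
      (∀ l, (A l * X).trace = 0) → ∀ μ : Fin m → ℝ, (∑ l, μ l • A l) * X = 0 → μ = 0)
    (h3 : ∀ s ∈ Set.Ioo (0 : ℝ) 1, {X : Matrix (Fin n) (Fin n) ℝ | X.PosSemidef ∧
      (∀ l, (A l * X).trace = (1 - s) * b l + s * (A l * X₀).trace) ∧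
      ∃ μ : Fin m → ℝ, μ ≠ 0 ∧ (∑ l, μ l • A l) * X = 0}.Countable ∨
      ∀ X X' : Matrix (Fin n) (Fin n) ℝ, X.PosSemidef → X'.PosSemidef →
        (∀ l, (A l * X).trace = (1 - s) * b l + s * (A l * X₀).trace) →
        (∀ l, (A l * X').trace = (1 - s) * b l + s * (A l * X₀).trace) →
        ∀ μ μ' : Fin m → ℝ, μ ≠ 0 → (∑ l, μ l • A l) * X = 0 →
        (∑ l, μ' l • A l) * X' = 0 → ∃ k : ℝ, μ' = k • μ)
    (h4 : ∀ s ∈ Set.Ioo (0 : ℝ) 1, ∀ X : Matrix (Fin n) (Fin n) ℝ, X.PosSemidef →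
      (∀ l, (A l * X).trace = (1 - s) * b l + s * (A l * X₀).trace) →
      ∀ μ μ' : Fin m → ℝ, μ ≠ 0 → (∑ l, μ l • A l) * X = 0 → (∑ l, μ' l • A l) * X = 0 →
      ∃ k : ℝ, μ' = k • μ)
    (h5 : ∀ s ∈ Set.Ioo (0 : ℝ) 1, ∀ X : Matrix (Fin n) (Fin n) ℝ, X.PosSemidef →
      (∀ l, (A l * X).trace = (1 - s) * b l + s * (A l * X₀).trace) →
      ∀ μ : Fin m → ℝ, μ ≠ 0 → (∑ l, μ l • A l) * X = 0 → μ ⬝ᵥ b ≠ 0) :
    ∃ X : ℝ → Matrix (Fin n) (Fin n) ℝ, X 0 = X₀ ∧ IsTrajectory C A b (Set.Ici 0) X ∧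
      (∀ (T : ℝ) (Z : ℝ → Matrix (Fin n) (Fin n) ℝ), Z 0 = X₀ →
        IsTrajectory C A b (Set.Ico 0 T) Z → ∀ t ∈ Set.Ico 0 T, Z t = X t) ∧
      ∃ Xs, IsOptimal C A b Xs ∧ Tendsto X atTop (𝓝 Xs) :=
  cross_kl C hC A hA b X₀ hX₀ h1 h2 h3 h4 h5 hfeas

end Pool.Agent.Results.MP_e757b3_an.Criterion
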