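import Pool.Agent.Lib.MP_e757b3_an.Every2
import Pool.Agent.Lib.MP_e757b3_ae.MS

open Matrix Filter Topology MeasureTheory
open Pool.Agent.Lib.MP_e757b3_ae

/-! # The first-ansatz Physarum dynamic: every constraint family, almost every right-hand side

Let `A 0, …, A (m - 1)` be any symmetric matrices and `Y` any matrix. For Lebesgue-almost every
`b` for which the SDP is feasible the following holds for every positive definite `C` and every
positive definite `X₀` whose right-hand side `𝒜 vec X₀` is a nonnegative combination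
`α b + β 𝒜 vec Y`, `(α, β) ≠ 0`. The trajectory exists and is positive definite for all times, it
is unique, and it converges to an optimal solution. For `β = 0` nothing is assumed about the
constraint family. For the other starts it is assumed that every nonzero `X ⪰ 0` with
`𝒜 vec X = 0` is nondegenerate, for example that there is no such `X`. -/

namespace Pool.Agent.Results.MP_e757b3_an.EveryFamily

theorem result {n m : ℕ} (A : Fin m → Matrix (Fin n) (Fin n) ℝ) (hA : ∀ l, (A l).IsSymm)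
    (Y : Matrix (Fin n) (Fin n) ℝ) :
    ∀ᵐ b : Fin m → ℝ, (∃ F, IsFeasible A b F) →
      ∀ C : Matrix (Fin n) (Fin n) ℝ, C.PosDef →
      ∀ α β : ℝ, 0 ≤ α → 0 ≤ β → 0 < α + β →
      (0 < β → ∀ X : Matrix (Fin n) (Fin n) ℝ, X.PosSemidef → X ≠ 0 →
        (∀ l, (A l * X).trace = 0) → ∀ μ : Fin m → ℝ, (∑ l, μ l • A l) * X = 0 → μ = 0) →
      ∀ X₀ : Matrix (Fin n) (Fin n) ℝ, X₀.PosDef →
      (∀ l, (A l * X₀).trace = α * b l + β * (A l * Y).trace) →
      ∃ X : ℝ → Matrix (Fin n) (Fin n) ℝ, X 0 = X₀ ∧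
        IsTrajectory C A b (Set.Ici 0) X ∧
        (∀ (T : ℝ) (Z : ℝ → Matrix (Fin n) (Fin n) ℝ), Z 0 = X₀ →
          IsTrajectory C A b (Set.Ico 0 T) Z → ∀ t ∈ Set.Ico 0 T, Z t = X t) ∧
        ∃ Xs, IsOptimal C A b Xs ∧ Tendsto X atTop (𝓝 Xs) := by
  have h1 := PhysND.every_family (A := A) fun l => (hA l).eq
  have h2 : ∀ᵐ b : Fin m → ℝ,
      (∀ X : Matrix (Fin n) (Fin n) ℝ, X.PosSemidef → X ≠ 0 →
        (∀ l, (A l * X).trace = 0) → ∀ μ : Fin m → ℝ, (∑ l, μ l • A l) * X = 0 → μ = 0) →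
      (∃ F, IsFeasible A b F) →
      ∀ C : Matrix (Fin n) (Fin n) ℝ, C.PosDef →
      ∀ s ∈ Set.Icc (0 : ℝ) 1, ∀ X₀ : Matrix (Fin n) (Fin n) ℝ, X₀.PosDef →
      (∀ l, (A l * X₀).trace = (1 - s) * b l + s * (A l * Y).trace) → Good C A b X₀ := by
    by_cases hrec : ∀ X : Matrix (Fin n) (Fin n) ℝ, X.PosSemidef → X ≠ 0 →
        (∀ l, (A l * X).trace = 0) → ∀ μ : Fin m → ℝ, (∑ l, μ l • A l) * X = 0 → μ = 0
    · filter_upwards [PhysND.every_segment A hA hrec Y] with b hb _ using hb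
    · exact Eventually.of_forall fun b h => absurd h hrec
  filter_upwards [h1, h2] with b hb1 hb2 hfeas C hC α β hα hβ hαβ hrec X₀ hX₀ hl
  have hk : 0 < (α + β)⁻¹ := inv_pos.2 hαβ
  have hsc : (α + β) • ((α + β)⁻¹ • X₀) = X₀ := by
    rw [smul_smul, mul_inv_cancel₀ hαβ.ne', one_smul]
  have hpd : ((α + β)⁻¹ • X₀).PosDef := hX₀.smul hk
  have htr : ∀ l, (A l * ((α + β)⁻¹ • X₀)).trace
      = (α + β)⁻¹ * (α * b l + β * (A l * Y).trace) := by
    intro l
    rw [Matrix.mul_smul, Matrix.trace_smul, hl l, smul_eq_mul]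
  have hgood : Good C A b ((α + β)⁻¹ • X₀) := by
    rcases eq_or_lt_of_le hβ with h0 | h0
    · refine (hb1 C hC _ hpd ⟨1, le_rfl, fun l => ?_⟩).vec hC hA
      rw [htr l, ← h0, zero_mul, add_zero, add_zero, one_mul, ← mul_assoc,
        inv_mul_cancel₀ (by rw [← h0, add_zero] at hαβ; exact hαβ.ne'), one_mul]
    · refine hb2 (hrec h0) hfeas C hC (β / (α + β))
        ⟨div_nonneg hβ hαβ.le, (div_le_one hαβ).2 (by linarith)⟩ _ hpd fun l => ?_
      rw [htr l]
      field_simp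
      ring
  have h3 := hgood.scale hαβ
  rw [hsc] at h3
  exact h3

end Pool.Agent.Results.MP_e757b3_an.EveryFamily
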