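import Pool.Agent.Lib.MP_e757b3_ae.MN

open Matrix Filter Topology
open Pool.Agent.Lib.MP_e757b3_ae

/-! # The first-ansatz Physarum dynamic from starts of low cost

For `X ⪰ 0` let `N(X) = {μ ≠ 0 | (∑ l, μ l • A l) * X = 0}`. Let `N(X)` be empty for every feasible
`X` with `tr(C X) ≤ w`; if `w` is the optimal value, this says that all optimal solutions are
primal nondegenerate. Then there is `ε > 0` such that both bullets of the question hold for every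
start `X₀ ≻ 0` for which `Y = X₀ / κ` has `tr(C Y) ≤ w + ε` and `|tr(A_l Y) - b_l| ≤ ε` for some
`κ > 0`. Feasible `X` of higher cost may be degenerate. -/

namespace Pool.Agent.Results.MP_e757b3_an.LowCost

theorem result {n m : ℕ} (C : Matrix (Fin n) (Fin n) ℝ) (A : Fin m → Matrix (Fin n) (Fin n) ℝ)
    (b : Fin m → ℝ) (w : ℝ) (hC : C.PosDef) (hA : ∀ l, (A l).IsSymm)
    (hnd : ∀ X : Matrix (Fin n) (Fin n) ℝ, X.PosSemidef → (∀ l, (A l * X).trace = b l) →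
      (C * X).trace ≤ w → ∀ μ : Fin m → ℝ, (∑ l, μ l • A l) * X = 0 → μ = 0) :
    ∃ ε > 0, ∀ κ : ℝ, 0 < κ → ∀ X₀ : Matrix (Fin n) (Fin n) ℝ, X₀.PosDef →
      (C * X₀).trace ≤ κ * (w + ε) → (∀ l, |(A l * X₀).trace - κ * b l| ≤ κ * ε) →
      ∃ X : ℝ → Matrix (Fin n) (Fin n) ℝ, X 0 = X₀ ∧ IsTrajectory C A b (Set.Ici 0) X ∧
        (∀ (T : ℝ) (Z : ℝ → Matrix (Fin n) (Fin n) ℝ), Z 0 = X₀ →
          IsTrajectory C A b (Set.Ico 0 T) Z → ∀ t ∈ Set.Ico 0 T, Z t = X t) ∧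
        ∃ Xs, IsOptimal C A b Xs ∧ Tendsto X atTop (𝓝 Xs) :=
  near_low C hC A hA b w hnd

end Pool.Agent.Results.MP_e757b3_an.LowCost
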